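import Mathlib
import Pool.Agent.Y920.EP.Base
import Pool.Agent.Y705.EP.Calc

set_option autoImplicit false

/-! Value sets of the binary forms `x ^ p + a y ^ p`, comparability up to classes in a quotient, and
roots of unity. -/

namespace Pool.Agent.Q10.EPV

open Pool.Agent.Y920.EP Pool.Agent.Y705.EP

section

variable {F : Type} [Field F] {A : Type} [CommGroup A] {φ : Fˣ →* A}

/-- the classes of `1 + u`, where `u` has the class `a` -/
def Dv (φ : Fˣ →* A) (a : A) : Set A :=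
  {b | ∃ u v : Fˣ, φ u = a ∧ (v : F) = 1 + u ∧ φ v = b}

/-- a homomorphism onto `A` such that `1 + u` has at most `K` classes when `u` runs through a class
other than one -/
structure VSys (φ : Fˣ →* A) (K : ℕ) : Prop where
  surj : Function.Surjective φ
  neg : φ (-1) = 1
  fin : ∀ a : A, a ≠ 1 → (Dv φ a).Finite ∧ (Dv φ a).ncard ≤ K

lemma dv_symm (h : φ (-1) = 1) {a b : A} (hb : b ∈ Dv φ a) : a ∈ Dv φ b := by
  obtain ⟨u, v, hu, hv, hb⟩ := hb
  refine ⟨-v, -u, by rw [phi_neg h, hb], ?_, by rw [phi_neg h, hu]⟩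
  rw [Units.val_neg, Units.val_neg, hv]
  ring

lemma dv_quot (h : φ (-1) = 1) {a b : A} (hb : b ∈ Dv φ a) : b⁻¹ ∈ Dv φ (a * b⁻¹) := by
  obtain ⟨u, v, hu, hv, hb⟩ := hb
  refine ⟨-(u * v⁻¹), v⁻¹, by rw [phi_neg h, map_mul, map_inv, hb, hu], ?_, by rw [map_inv, hb]⟩
  have hv0 : (v : F) ≠ 0 := v.ne_zero
  have e : (u : F) = v - 1 := by rw [hv]; ring
  rw [Units.val_neg, Units.val_mul, Units.val_inv_eq_inv_val, e]
  field_simp
  ring

lemma exists_NF {K : ℕ} (hS : VSys φ K) : ∃ NF : A → Finset A, (∀ a, (NF a).card ≤ K) ∧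
    ∀ a b, a ≠ 1 → (b ∈ NF a ↔ b ∈ Dv φ a) := by
  classical
  refine ⟨fun a => if h : a ≠ 1 then (hS.fin a h).1.toFinset else ∅, fun a => ?_,
    fun a b ha => ?_⟩
  · by_cases h : a ≠ 1
    · simp only [dif_pos h]
      rw [← Set.ncard_eq_toFinset_card _ (hS.fin a h).1]
      exact (hS.fin a h).2
    · simp only [dif_neg h]; simp
  · simp only [dif_pos ha, Set.Finite.mem_toFinset]

lemma l1_aux {K : ℕ} (hS : VSys φ K) {x y z : Fˣ} (hz : (z : F) = x + y) (hxy : φ x ≠ φ y) :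
    Le φ (K ^ 2) y z := by
  classical
  have ha : φ y / φ x ≠ 1 := fun e => hxy (div_eq_one.1 e).symm
  obtain ⟨NF, hNF1, hNF2⟩ := exists_NF hS
  let D : Finset A := (NF (φ y / φ x)).image fun n => φ x / φ z * n
  let B : Finset A := D.biUnion fun g => (NF g).image fun n => φ z * n
  refine ⟨B, ?_, ?_⟩
  · have h1 : B.card ≤ D.card * K := by
      refine Finset.card_biUnion_le.trans ?_
      exact (Finset.sum_le_card_nsmul _ _ _ fun g _ => Finset.card_image_le.trans (hNF1 g)).trans_eq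
        (smul_eq_mul _ _)
    have h2 : D.card ≤ K := Finset.card_image_le.trans (hNF1 _)
    rw [sq]
    exact h1.trans (Nat.mul_le_mul_right _ h2)
  · rintro w hw ⟨y', hy', e⟩
    obtain ⟨z', hz'⟩ := exists_add hS.neg (x := x) (y := y') (by rw [e]; exact hxy)
    have hz1 : (z' : F) = z + w := by rw [hz', hy', hz]; ring
    by_cases hg : φ z' = φ z
    · exact ⟨z', hz1, hg⟩
    · exfalso
      apply hw
      have hg' : φ z' / φ z ≠ 1 := fun e => hg (div_eq_one.1 e)
      refine Finset.mem_biUnion.2 ⟨φ z' / φ z, ?_, ?_⟩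
      · refine Finset.mem_image.2 ⟨φ z' / φ x, (hNF2 _ _ ha).2 ?_, ?_⟩
        · refine ⟨y' / x, z' / x, by rw [map_div, e], ?_, by rw [map_div]⟩
          rw [Units.val_div_eq_div_val, Units.val_div_eq_div_val, hz']
          field_simp
        · rw [div_mul_div_comm, mul_comm (φ x), mul_div_mul_right_eq_div]
      · refine Finset.mem_image.2 ⟨φ w / φ z, (hNF2 _ _ hg').2 ?_, ?_⟩
        · refine dv_symm hS.neg ⟨w / z, z' / z, by rw [map_div], ?_, by rw [map_div]⟩
          rw [Units.val_div_eq_div_val, Units.val_div_eq_div_val, hz1]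
          field_simp
        · exact mul_div_cancel _ _

/-- The basic lemma. -/
theorem hl_of {K : ℕ} (hS : VSys φ K) : HL φ (K ^ 2) := fun x y z hz hxy =>
  ⟨l1_aux hS (by rw [hz, add_comm]) (Ne.symm hxy), l1_aux hS hz hxy⟩

end

section quo

variable {F : Type} [Field F] {A : Type} [CommGroup A] {φ : Fˣ →* A} {C : Type} [CommGroup C]
  {π : A →* C}

/-- with at most `k` exceptional classes in `C`, `w ≪ y` implies `w ≪ z` -/
def LeQ (φ : Fˣ →* A) (π : A →* C) (k : ℕ) (y z : Fˣ) : Prop :=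
  ∃ B : Finset C, B.card ≤ k ∧ ∀ w : Fˣ, π (φ w) ∉ B → Ml φ w y → Ml φ w z

/-- `y` is a unit up to `k` exceptional classes in `C` -/
def EnQ (φ : Fˣ →* A) (π : A →* C) (k : ℕ) (y : Fˣ) : Prop := LeQ φ π k 1 y ∧ LeQ φ π k y 1

lemma leQ_of {k : ℕ} {y z : Fˣ} (h : Le φ k y z) : LeQ φ π k y z := by
  classical
  obtain ⟨B, hB, h⟩ := h
  refine ⟨B.image π, Finset.card_image_le.trans hB, fun w hw h1 => h w (fun hc => hw ?_) h1⟩
  exact Finset.mem_image_of_mem _ hc

lemma enQ_of {k : ℕ} {y : Fˣ} (h : En φ k y) : EnQ φ π k y := ⟨leQ_of h.1, leQ_of h.2⟩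

lemma leQ_refl (k : ℕ) (y : Fˣ) : LeQ φ π k y y := ⟨∅, by simp, fun _ _ h => h⟩

lemma leQ_mono {k l : ℕ} (hkl : k ≤ l) {y z : Fˣ} (h : LeQ φ π k y z) : LeQ φ π l y z := by
  obtain ⟨B, hB, h⟩ := h
  exact ⟨B, hB.trans hkl, h⟩

lemma leQ_tr {k l : ℕ} {x y z : Fˣ} (h1 : LeQ φ π k x y) (h2 : LeQ φ π l y z) :
    LeQ φ π (k + l) x z := by
  classical
  obtain ⟨B, hB, h1⟩ := h1
  obtain ⟨C, hC, h2⟩ := h2
  refine ⟨B ∪ C, (Finset.card_union_le _ _).trans (Nat.add_le_add hB hC), fun w hw h => ?_⟩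
  rw [Finset.mem_union, not_or] at hw
  exact h2 w hw.2 (h1 w hw.1 h)

lemma leQ_mul {k : ℕ} (c : Fˣ) {y z : Fˣ} (h : LeQ φ π k y z) : LeQ φ π k (c * y) (c * z) := by
  classical
  obtain ⟨B, hB, h⟩ := h
  refine ⟨B.image fun b => π (φ c) * b, Finset.card_image_le.trans hB, fun w hw h1 => ?_⟩
  have e : c * (c⁻¹ * w) = w := mul_inv_cancel_left c w
  rw [← e, ml_mul] at h1 ⊢
  refine h _ (fun hc => hw ?_) h1
  rw [Finset.mem_image]
  exact ⟨_, hc, by rw [← map_mul, ← map_mul, e]⟩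

lemma enQ_one (k : ℕ) : EnQ φ π k 1 := ⟨leQ_refl k 1, leQ_refl k 1⟩

lemma enQ_mono {k l : ℕ} (hkl : k ≤ l) {y : Fˣ} (h : EnQ φ π k y) : EnQ φ π l y :=
  ⟨leQ_mono hkl h.1, leQ_mono hkl h.2⟩

lemma enQ_mul {k l : ℕ} {y z : Fˣ} (hy : EnQ φ π k y) (hz : EnQ φ π l z) :
    EnQ φ π (k + l) (y * z) := by
  constructor
  · refine leQ_tr hy.1 ?_
    have := leQ_mul y hz.1
    rwa [mul_one] at this
  · have := leQ_mul y hz.2
    rw [mul_one] at this
    rw [add_comm]
    exact leQ_tr this hy.2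

lemma enQ_inv {k : ℕ} {y : Fˣ} (hy : EnQ φ π k y) : EnQ φ π k y⁻¹ := by
  constructor
  · have := leQ_mul y⁻¹ hy.2
    rwa [inv_mul_cancel, mul_one] at this
  · have := leQ_mul y⁻¹ hy.1
    rwa [inv_mul_cancel, mul_one] at this

/-- going back to `A` -/
lemma en_of_enQ {k : ℕ} {y : Fˣ} (h : EnQ φ (MonoidHom.id A) k y) : En φ k y := h

/-- Few classes of small units in the quotient. -/
theorem suQ (k : ℕ) (G : Finset C)
    (hG : ∀ g ∈ G, ∃ w : Fˣ, π (φ w) = g ∧ EnQ φ π k w ∧ Ml φ w 1) : G.card ≤ 2 * k + 1 := by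
  classical
  choose! w hw1 hw2 hw3 using hG
  have hB : ∀ g ∈ G, ∃ B : Finset C, B.card ≤ k ∧
      ∀ u : Fˣ, π (φ u) ∉ B → Ml φ u 1 → Ml φ u (w g) := fun g hg => (hw2 g hg).1
  choose! B hB1 hB2 using hB
  have claim : ∀ g ∈ G, ∀ h ∈ G, g ≠ h → h ∈ B g ∨ g ∈ B h := by
    intro g hg h hh hgh
    by_contra hc
    rw [not_or] at hc
    have h1 := hB2 g hg (w h) (by rw [hw1 h hh]; exact hc.1) (hw3 h hh)
    have h2 := hB2 h hh (w g) (by rw [hw1 g hg]; exact hc.2) (hw3 g hg)
    obtain ⟨z1, hz1, e1⟩ := h1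
    obtain ⟨z2, hz2, e2⟩ := h2
    have h3 : z1 = z2 := Units.ext (by rw [hz1, hz2, add_comm])
    have e3 := congrArg π e1
    have e4 := congrArg π e2
    rw [hw1 g hg] at e3
    rw [hw1 h hh] at e4
    rw [h3] at e3
    exact hgh (e3.symm.trans e4)
  let P : Finset (C × C) := G.biUnion fun g => (B g).image fun h => (g, h)
  let P' : Finset (C × C) := G.biUnion fun g => (B g).image fun h => (h, g)
  have hP : P.card ≤ G.card * k := by
    refine Finset.card_biUnion_le.trans ?_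
    exact (Finset.sum_le_card_nsmul _ _ _ fun g hg =>
      Finset.card_image_le.trans (hB1 g hg)).trans_eq (smul_eq_mul _ _)
  have hP' : P'.card ≤ G.card * k := by
    refine Finset.card_biUnion_le.trans ?_
    exact (Finset.sum_le_card_nsmul _ _ _ fun g hg =>
      Finset.card_image_le.trans (hB1 g hg)).trans_eq (smul_eq_mul _ _)
  have hsub : G.offDiag ⊆ P ∪ P' := by
    rintro ⟨g, h⟩ hgh
    rw [Finset.mem_offDiag] at hgh
    obtain ⟨hg, hh, hne⟩ := hgh
    rw [Finset.mem_union]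
    rcases claim g hg h hh hne with h1 | h1
    · left
      exact Finset.mem_biUnion.2 ⟨g, hg, Finset.mem_image.2 ⟨h, h1, rfl⟩⟩
    · right
      exact Finset.mem_biUnion.2 ⟨h, hh, Finset.mem_image.2 ⟨g, h1, rfl⟩⟩
  have h1 : G.card * G.card - G.card ≤ G.card * k + G.card * k := by
    rw [← Finset.offDiag_card]
    exact (Finset.card_le_card hsub).trans
      ((Finset.card_union_le _ _).trans (Nat.add_le_add hP hP'))
  rcases Nat.eq_zero_or_pos G.card with h0 | h0
  · omega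
  by_contra hc
  push Not at hc
  have h2 : G.card * (2 * k + 2) ≤ G.card * G.card := Nat.mul_le_mul_left _ hc
  have h3 : G.card * (2 * k + 2) = G.card * k + G.card * k + 2 * G.card := by ring
  omega

/-- the classes in the quotient of small units -/
def SUc (φ : Fˣ →* A) (π : A →* C) (k : ℕ) : Set C :=
  {g | ∃ w : Fˣ, π (φ w) = g ∧ EnQ φ π k w ∧ Ml φ w 1}

lemma suc_fin (φ : Fˣ →* A) (π : A →* C) (k : ℕ) : (SUc φ π k).Finite := by
  by_contra hinf
  obtain ⟨X, hX, hc⟩ := Set.Infinite.exists_subset_card_eq hinf (2 * k + 2)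
  have := suQ (φ := φ) (π := π) k X fun g hg => hX hg
  omega

lemma suc_card (φ : Fˣ →* A) (π : A →* C) (k : ℕ) :
    (suc_fin φ π k).toFinset.card ≤ 2 * k + 1 :=
  suQ (φ := φ) (π := π) k _ fun g hg => by
    have h := (Set.Finite.mem_toFinset (suc_fin φ π k)).1 hg
    exact h

/-- Roots of unity with trivial class in the quotient are units, with the same exceptional
classes. -/
theorem rootQ {M : ℕ} (h : φ (-1) = 1) (hL : HL φ M) {r : Fˣ} (hr : φ r ≠ 1) (hen : En φ M r)
    {n : ℕ} {e : Fˣ} (hn : 1 ≤ n) (hen1 : e ^ n = 1) (hpe : π (φ e) = 1) (j : ℕ) :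
    EnQ φ π (3 * M) (e ^ j) := by
  classical
  obtain ⟨c1, -, -⟩ := t_CALC F A φ M h hL
  have key : Le φ (3 * M) e 1 ∨ Le φ (3 * M) 1 e := by
    by_cases he : φ e = 1
    · have h1 : φ (e * r) ≠ 1 := by rw [map_mul, he, one_mul]; exact hr
      have h2 : Le φ M e (e * r) := by
        have := le_mul e hen.1
        rwa [mul_one] at this
      have h3 : Le φ M (e * r) e := by
        have := le_mul e hen.2
        rwa [mul_one] at this
      rcases c1 _ h1 with h4 | h4
      · right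
        exact le_mono (by omega) (le_tr h4 h3)
      · left
        exact le_mono (by omega) (le_tr h2 h4)
    · rcases c1 _ he with h4 | h4
      · exact Or.inr (le_mono (by omega) h4)
      · exact Or.inl (le_mono (by omega) h4)
  have hjn : e ^ (n * j) = 1 := by rw [pow_mul, hen1, one_pow]
  have hjle : j ≤ n * j := Nat.le_mul_of_pos_left _ hn
  -- the class of `w / e ^ i` does not depend on `i`
  have hcl : ∀ (w : Fˣ) (i : ℕ), π (φ ((e ^ i)⁻¹ * w)) = π (φ w) := by
    intro w i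
    rw [map_mul, map_mul, map_inv, map_inv, map_pow, map_pow, hpe, one_pow, inv_one, one_mul]
  have hsh : ∀ (w : Fˣ) (i : ℕ), Ml φ w (e ^ i) ↔ Ml φ ((e ^ i)⁻¹ * w) 1 := by
    intro w i
    have := ml_mul (φ := φ) (e ^ i) ((e ^ i)⁻¹ * w) 1
    rw [mul_inv_cancel_left, mul_one] at this
    exact this
  have hsh' : ∀ (w : Fˣ) (i : ℕ), Ml φ w (e ^ (i + 1)) ↔ Ml φ ((e ^ i)⁻¹ * w) e := by
    intro w i
    have := ml_mul (φ := φ) (e ^ i) ((e ^ i)⁻¹ * w) e
    rw [mul_inv_cancel_left, ← pow_succ] at this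
    exact this
  rcases key with ⟨B, hB, hk⟩ | ⟨B, hB, hk⟩
  · -- going down
    have step : ∀ w : Fˣ, π (φ w) ∉ B.image π → ∀ i d : ℕ, Ml φ w (e ^ (i + d)) →
        Ml φ w (e ^ i) := by
      intro w hw i d
      induction d with
      | zero => exact fun h => h
      | succ d ih =>
        intro h1
        apply ih
        rw [← add_assoc, hsh'] at h1
        rw [hsh]
        refine hk _ (fun hc => hw ?_) h1
        rw [← hcl w (i + d)]
        exact Finset.mem_image_of_mem _ hc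
    refine ⟨⟨B.image π, Finset.card_image_le.trans hB, fun w hw h1 => ?_⟩,
      ⟨B.image π, Finset.card_image_le.trans hB, fun w hw h1 => ?_⟩⟩
    · refine step w hw j (n * j - j) ?_
      rw [Nat.add_sub_cancel' hjle, hjn]
      exact h1
    · have := step w hw 0 j (by rw [zero_add]; exact h1)
      rwa [pow_zero] at this
  · -- going up
    have step : ∀ w : Fˣ, π (φ w) ∉ B.image π → ∀ i d : ℕ, Ml φ w (e ^ i) →
        Ml φ w (e ^ (i + d)) := by
      intro w hw i d
      induction d with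
      | zero => exact fun h => h
      | succ d ih =>
        intro h1
        have h2 := ih h1
        rw [hsh] at h2
        rw [← add_assoc, hsh']
        refine hk _ (fun hc => hw ?_) h2
        rw [← hcl w (i + d)]
        exact Finset.mem_image_of_mem _ hc
    refine ⟨⟨B.image π, Finset.card_image_le.trans hB, fun w hw h1 => ?_⟩,
      ⟨B.image π, Finset.card_image_le.trans hB, fun w hw h1 => ?_⟩⟩
    · have := step w hw 0 j (by rw [pow_zero]; exact h1)
      rwa [zero_add] at this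
    · have := step w hw j (n * j - j) h1
      rwa [Nat.add_sub_cancel' hjle, hjn] at this

/-- a unit whose class is not rigid is a unit up to `M` classes -/
theorem improve {M : ℕ} (h : φ (-1) = 1) (hL : HL φ M) {u : Fˣ} (hu : φ u ≠ 1)
    (h1 : ¬ Ml φ (-u) 1) (h2 : ¬ Ml φ (-u)⁻¹ 1) : En φ M u := by
  obtain ⟨s, hs⟩ := exists_one_add h (y := -u) (by rw [phi_neg h]; exact hu)
  refine (t_CALC F A φ M h hL).2.2 u s ?_ hu ?_ ?_
  · rw [hs, Units.val_neg]
    ring
  · intro e
    apply h1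
    exact ⟨s, by rw [hs, Units.val_one], by rw [e, map_one]⟩
  · intro e
    apply h2
    refine ⟨s / (-u), ?_, ?_⟩
    · rw [Units.val_div_eq_div_val, hs, Units.val_one, Units.val_inv_eq_inv_val]
      have : ((-u : Fˣ) : F) ≠ 0 := Units.ne_zero _
      field_simp
      ring
    · rw [map_div, phi_neg h, e, div_self', map_one]

end quo

end Pool.Agent.Q10.EPV
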