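import Mathlib
import Pool.Agent.Q10.EPV.Base

set_option autoImplicit false

/-! Boxes of units whose quotients are units up to few classes. -/

namespace Pool.Agent.Q10.EPV

open Pool.Agent.Y920.EP Pool.Agent.Y705.EP

section

variable {F : Type} [Field F] {A : Type} [CommGroup A] {φ : Fˣ →* A} {C : Type} [CommGroup C]
  {π : A →* C}

/-- the class of `t` in the quotient is not one, and the products of `t` with the powers of `e` are
units up to `M` classes -/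
def Fine (φ : Fˣ →* A) (π : A →* C) (M : ℕ) (e t : Fˣ) : Prop :=
  π (φ t) ≠ 1 ∧ ∀ l : ℕ, En φ M (e ^ l * t)

/-- the setting: a root of unity `e` with `e ^ p = -1` and a unit `r` with nontrivial class -/
structure Ctx (φ : Fˣ →* A) (π : A →* C) (M p : ℕ) (e r : Fˣ) : Prop where
  neg : φ (-1) = 1
  hl : HL φ M
  pos : 1 ≤ p
  root : e ^ p = -1
  one : π (φ e) = 1
  rne : φ r ≠ 1
  ren : En φ M r

variable {M p : ℕ} {e r : Fˣ}

lemma Ctx.enQ (h : Ctx φ π M p e r) (j : ℕ) : EnQ φ π (3 * M) (e ^ j) := by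
  refine rootQ h.neg h.hl h.rne h.ren (n := 2 * p) ?_ ?_ h.one j
  · have := h.pos
    omega
  · rw [two_mul, pow_add, h.root]
    simp

lemma Ctx.fine (h : Ctx φ π M p e r) {t s : Fˣ} (ht : En φ M t) (hs : En φ M s)
    (h1 : π (φ (t * s)) ≠ 1) (h2 : π (φ (t * s)) ∉ SUc φ π (5 * M))
    (h3 : (π (φ (t * s)))⁻¹ ∉ SUc φ π (5 * M)) : Fine φ π M e (t * s) := by
  refine ⟨h1, fun l => ?_⟩
  have hcl : ∀ l : ℕ, π (φ (e ^ l * (t * s))) = π (φ (t * s)) := by
    intro l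
    rw [map_mul, map_mul, map_pow, map_pow, h.one, one_pow, one_mul]
  have hneg : -(e ^ l * (t * s)) = e ^ (l + p) * (t * s) := by
    rw [pow_add, h.root]
    simp
  have hE : EnQ φ π (5 * M) (e ^ (l + p) * (t * s)) := by
    have := enQ_mul (h.enQ (l + p)) (enQ_of (π := π) (en_mul ht hs))
    exact enQ_mono (by omega) this
  refine improve h.neg h.hl ?_ ?_ ?_
  · intro h4
    apply h1
    rw [← hcl l, h4, map_one]
  · rw [hneg]
    intro h4
    exact h2 ⟨_, hcl _, hE, h4⟩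
  · rw [hneg]
    intro h4
    exact h3 ⟨_, by rw [map_inv, map_inv, hcl], enQ_inv hE, h4⟩

lemma Ctx.fine_inv (h : Ctx φ π M p e r) {t : Fˣ} (ht : Fine φ π M e t) : Fine φ π M e t⁻¹ := by
  refine ⟨?_, fun l => ?_⟩
  · rw [map_inv, map_inv, Ne, inv_eq_one]
    exact ht.1
  · have h1 : e ^ (2 * p) = 1 := by
      rw [two_mul, pow_add, h.root]
      simp
    have hp := h.pos
    have h2 : e ^ l * t⁻¹ = (e ^ (2 * p * l - l) * t)⁻¹ := by
      rw [mul_inv]
      congr 1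
      rw [eq_inv_iff_mul_eq_one, ← pow_add, Nat.add_sub_cancel', pow_mul, h1, one_pow]
      exact Nat.le_mul_of_pos_left _ (by omega)
    rw [h2]
    exact en_inv (ht.2 _)

/-- a box of units `Y`, with the set `P` of quotients -/
structure Box (φ : Fˣ →* A) (π : A →* C) (M : ℕ) (e : Fˣ) (Y P : Finset Fˣ) : Prop where
  one : 1 ∈ Y
  div : ∀ y ∈ Y, ∀ z ∈ Y, y ≠ z → y / z ∈ P
  inv : ∀ t ∈ P, t⁻¹ ∈ P
  fine : ∀ t ∈ P, Fine φ π M e t

/-- the classes to be avoided -/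
def Bad (φ : Fˣ →* A) (π : A →* C) (M : ℕ) : Set C :=
  {g | g = 1 ∨ g ∈ SUc φ π (5 * M) ∨ g⁻¹ ∈ SUc φ π (5 * M)}

open scoped Classical in
lemma bad_fin (φ : Fˣ →* A) (π : A →* C) (M : ℕ) :
    ∃ B : Finset C, B.card ≤ 20 * M + 3 ∧ ∀ g : C, g ∈ Bad φ π M ↔ g ∈ B := by
  let S := (suc_fin φ π (5 * M)).toFinset
  have hS : S.card ≤ 2 * (5 * M) + 1 := suc_card φ π (5 * M)
  refine ⟨insert 1 (S ∪ S.image fun g => g⁻¹), ?_, fun g => ?_⟩
  · refine (Finset.card_insert_le _ _).trans ?_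
    have h1 := Finset.card_union_le S (S.image fun g => g⁻¹)
    have h2 : (S.image fun g => g⁻¹).card ≤ S.card := Finset.card_image_le
    omega
  · rw [Finset.mem_insert, Finset.mem_union, Finset.mem_image]
    constructor
    · rintro (h | h | h)
      · exact Or.inl h
      · exact Or.inr (Or.inl ((Set.Finite.mem_toFinset _).2 h))
      · exact Or.inr (Or.inr ⟨g⁻¹, (Set.Finite.mem_toFinset _).2 h, inv_inv g⟩)
    · rintro (h | h | ⟨x, hx, rfl⟩)
      · exact Or.inl h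
      · exact Or.inr (Or.inl ((Set.Finite.mem_toFinset _).1 h))
      · refine Or.inr (Or.inr ?_)
        rw [inv_inv]
        exact (Set.Finite.mem_toFinset _).1 hx

lemma Ctx.fine' (h : Ctx φ π M p e r) {t s : Fˣ} (ht : En φ M t) (hs : En φ M s)
    (h1 : π (φ (t * s)) ∉ Bad φ π M) : Fine φ π M e (t * s) :=
  h.fine ht hs (fun h2 => h1 (Or.inl h2)) (fun h2 => h1 (Or.inr (Or.inl h2)))
    (fun h2 => h1 (Or.inr (Or.inr h2)))

open scoped Classical in
lemma box_step (h : Ctx φ π M p e r) {Y P : Finset Fˣ} (hB : Box φ π M e Y P) {s : Fˣ}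
    (hs : En φ M s) {L : ℕ} (hL : 1 ≤ L)
    (hav' : ∀ t : Fˣ, (t = 1 ∨ t ∈ P) → ∀ c : ℕ, 1 ≤ c → c < L →
      π (φ (t * s ^ c)) ∉ Bad φ π M) :
    ∃ Y' P' : Finset Fˣ, Box φ π M e Y' P' ∧ Y'.card = Y.card * L ∧
      P'.card + 1 ≤ (P.card + 1) * (2 * L - 1) := by
  have hav : ∀ t ∈ insert 1 P, ∀ c : ℕ, 1 ≤ c → c < L → π (φ (t * s ^ c)) ∉ Bad φ π M :=
    fun t ht => hav' t (Finset.mem_insert.1 ht)
  have hen : ∀ t ∈ insert 1 P, En φ M t := by
    intro t ht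
    rcases Finset.mem_insert.1 ht with rfl | ht
    · exact en_one _
    · have := (hB.fine t ht).2 0
      rwa [pow_zero, one_mul] at this
  have hinv : ∀ t ∈ insert 1 P, t⁻¹ ∈ insert 1 P := by
    intro t ht
    rcases Finset.mem_insert.1 ht with rfl | ht
    · rw [inv_one]; exact Finset.mem_insert_self _ _
    · exact Finset.mem_insert_of_mem (hB.inv t ht)
  have hdiv : ∀ y ∈ Y, ∀ z ∈ Y, y / z ∈ insert 1 P := by
    intro y hy z hz
    by_cases hyz : y = z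
    · rw [hyz, div_self']; exact Finset.mem_insert_self _ _
    · exact Finset.mem_insert_of_mem (hB.div y hy z hz hyz)
  have hfine : ∀ t ∈ insert 1 P, ∀ c : ℕ, c + 1 < L → Fine φ π M e (t * s ^ (c + 1)) := by
    intro t ht c
    induction c with
    | zero =>
      intro hc
      have h1 := hav t ht 1 le_rfl hc
      rw [zero_add, pow_one]
      rw [pow_one] at h1
      exact h.fine' (hen t ht) hs h1
    | succ c ih =>
      intro hc
      have h1 := hav t ht (c + 1 + 1) (by omega) hc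
      have h2 := (ih (by omega)).2 0
      rw [pow_zero, one_mul] at h2
      rw [pow_succ, ← mul_assoc] at h1 ⊢
      exact h.fine' h2 hs h1
  obtain ⟨T, hTd⟩ : ∃ T : Finset Fˣ,
      T = (insert 1 P ×ˢ Finset.Ico 1 L).image fun x => x.1 * s ^ x.2 := ⟨_, rfl⟩
  have hT : ∀ t ∈ T, Fine φ π M e t := by
    intro t ht
    rw [hTd] at ht
    obtain ⟨⟨x, c⟩, hx, rfl⟩ := Finset.mem_image.1 ht
    rw [Finset.mem_product, Finset.mem_Ico] at hx
    obtain ⟨c', rfl⟩ : ∃ c', c = c' + 1 := ⟨c - 1, by have := hx.2.1; dsimp at this; omega⟩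
    exact hfine x hx.1 c' hx.2.2
  have hTm : ∀ t ∈ insert 1 P, ∀ c : ℕ, 1 ≤ c → c < L → t * s ^ c ∈ T := by
    intro t ht c h1 h2
    rw [hTd]
    exact Finset.mem_image.2 ⟨(t, c), Finset.mem_product.2 ⟨ht, Finset.mem_Ico.2 ⟨h1, h2⟩⟩, rfl⟩
  have hTc : T.card ≤ (P.card + 1) * (L - 1) := by
    rw [hTd]
    refine Finset.card_image_le.trans ?_
    rw [Finset.card_product, Nat.card_Ico]
    exact Nat.mul_le_mul_right _ (Finset.card_insert_le _ _)
  -- quotients of elements of the new box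
  have hq : ∀ y ∈ Y, ∀ z ∈ Y, ∀ c d : ℕ, c < d → d < L →
      (z * s ^ d) / (y * s ^ c) ∈ T := by
    intro y hy z hz c d hcd hd
    have e1 : (z * s ^ d) / (y * s ^ c) = z / y * s ^ (d - c) := by
      rw [mul_div_mul_comm, ← pow_sub_mul_pow s hcd.le, mul_div_cancel_right]
    rw [e1]
    exact hTm _ (hdiv z hz y hy) _ (by omega) (by omega)
  have hne : ∀ t ∈ T, t ≠ 1 := by
    rintro t ht rfl
    apply (hT 1 ht).1
    rw [map_one, map_one]
  refine ⟨(Y ×ˢ Finset.range L).image fun x => x.1 * s ^ x.2, P ∪ (T ∪ T.image fun t => t⁻¹),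
    ⟨?_, ?_, ?_, ?_⟩, ?_, ?_⟩
  · exact Finset.mem_image.2 ⟨(1, 0), Finset.mem_product.2 ⟨hB.one, Finset.mem_range.2 hL⟩,
      by rw [pow_zero, one_mul]⟩
  · intro y hy z hz hyz
    obtain ⟨⟨y', c⟩, hy', rfl⟩ := Finset.mem_image.1 hy
    obtain ⟨⟨z', d⟩, hz', rfl⟩ := Finset.mem_image.1 hz
    rw [Finset.mem_product, Finset.mem_range] at hy' hz'
    dsimp only at hy' hz' hyz ⊢
    clear hy hz
    rw [Finset.mem_union, Finset.mem_union, Finset.mem_image]
    rcases lt_trichotomy c d with hcd | rfl | hcd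
    · right; right
      refine ⟨_, hq y' hy'.1 z' hz'.1 c d hcd hz'.2, ?_⟩
      rw [inv_div]
    · left
      rw [mul_div_mul_right_eq_div]
      refine hB.div y' hy'.1 z' hz'.1 fun h1 => hyz (by rw [h1])
    · right; left
      exact hq z' hz'.1 y' hy'.1 d c hcd hy'.2
  · intro t ht
    rw [Finset.mem_union, Finset.mem_union, Finset.mem_image] at ht ⊢
    rcases ht with ht | ht | ⟨t, ht, rfl⟩
    · exact Or.inl (hB.inv t ht)
    · exact Or.inr (Or.inr ⟨t, ht, rfl⟩)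
    · exact Or.inr (Or.inl (by rwa [inv_inv]))
  · intro t ht
    rw [Finset.mem_union, Finset.mem_union, Finset.mem_image] at ht
    rcases ht with ht | ht | ⟨t, ht, rfl⟩
    · exact hB.fine t ht
    · exact hT t ht
    · exact h.fine_inv (hT t ht)
  · rw [Finset.card_image_of_injOn, Finset.card_product, Finset.card_range]
    rintro ⟨y, c⟩ hy ⟨z, d⟩ hz hyz
    rw [Finset.mem_coe, Finset.mem_product, Finset.mem_range] at hy hz
    dsimp only at hy hz hyz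
    rcases lt_trichotomy c d with hcd | rfl | hcd
    · exfalso
      apply hne _ (hq y hy.1 z hz.1 c d hcd hz.2)
      rw [hyz, div_self']
    · rw [mul_right_cancel hyz]
    · exfalso
      apply hne _ (hq z hz.1 y hy.1 d c hcd hy.2)
      rw [hyz, div_self']
  · have h1 := Finset.card_union_le P (T ∪ T.image fun t => t⁻¹)
    have h2 := Finset.card_union_le T (T.image fun t => t⁻¹)
    have h3 : (T.image fun t => t⁻¹).card ≤ T.card := Finset.card_image_le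
    have h4 : (P.card + 1) * (2 * L - 1) = P.card + 1 + 2 * ((P.card + 1) * (L - 1)) := by
      obtain ⟨L', rfl⟩ : ∃ L', L = L' + 1 := ⟨L - 1, by omega⟩
      rw [show 2 * (L' + 1) - 1 = 2 * L' + 1 by omega, show L' + 1 - 1 = L' by omega]
      ring
    omega

lemma exists_inv {p c : ℕ} (hp : p.Prime) (h1 : 1 ≤ c) (h2 : c < p) :
    ∃ c' : ℕ, ∀ a : A, a ^ p = 1 → (a ^ c) ^ c' = a := by
  have hcop : Nat.Coprime c p := by
    rw [Nat.coprime_comm, Nat.Prime.coprime_iff_not_dvd hp]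
    intro h
    have := Nat.le_of_dvd (by omega) h
    omega
  obtain ⟨c', hc'⟩ := Nat.exists_mul_mod_eq_one_of_coprime hcop hp.one_lt
  refine ⟨c', fun a ha => ?_⟩
  rw [← pow_mul, pow_eq_pow_mod _ ha, hc'.2, pow_one]

open scoped Classical in
/-- choosing the next element -/
lemma exists_next {p : ℕ} (hp : p.Prime) (hexp : ∀ a : A, a ^ p = 1)
    (hπ : ∀ S : Finset C, ∃ S' : Finset A, S'.card ≤ p * S.card ∧ ∀ a, π a ∈ S → a ∈ S')
    (P : Finset Fˣ) {L : ℕ} (hLp : L ≤ p) (X : Finset A)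
    (hX : (P.card + 1) * (L - 1) * (p * (20 * M + 3)) < X.card) :
    ∃ a ∈ X, ∀ t : Fˣ, (t = 1 ∨ t ∈ P) → ∀ c : ℕ, 1 ≤ c → c < L →
      π (φ t * a ^ c) ∉ Bad φ π M := by
  obtain ⟨B, hB1, hB2⟩ := bad_fin φ π M
  obtain ⟨B', hB3, hB4⟩ := hπ B
  have hi : ∀ c : ℕ, ∃ c' : ℕ, 1 ≤ c → c < p → ∀ a : A, a ^ p = 1 → (a ^ c) ^ c' = a := by
    intro c
    by_cases hc : 1 ≤ c ∧ c < p
    · obtain ⟨c', hc'⟩ := exists_inv (A := A) hp hc.1 hc.2
      exact ⟨c', fun _ _ => hc'⟩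
    · exact ⟨0, fun h1 h2 => absurd ⟨h1, h2⟩ hc⟩
  choose i hi using hi
  let E : Finset A := (insert 1 P ×ˢ Finset.Ico 1 L).biUnion fun x =>
    B'.image fun b => (b / φ x.1) ^ (i x.2)
  have hE : E.card ≤ (P.card + 1) * (L - 1) * (p * (20 * M + 3)) := by
    refine Finset.card_biUnion_le.trans ?_
    refine (Finset.sum_le_card_nsmul _ _ (p * (20 * M + 3)) fun x _ =>
      Finset.card_image_le.trans (hB3.trans (Nat.mul_le_mul_left _ hB1))).trans ?_
    rw [smul_eq_mul, Finset.card_product, Nat.card_Ico]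
    exact Nat.mul_le_mul_right _ (Nat.mul_le_mul_right _ (Finset.card_insert_le _ _))
  obtain ⟨a, haX, haE⟩ := Finset.exists_mem_notMem_of_card_lt_card (hE.trans_lt hX)
  refine ⟨a, haX, fun t ht c h1 h2 hb => haE ?_⟩
  rw [← Finset.mem_insert] at ht
  rw [hB2] at hb
  refine Finset.mem_biUnion.2 ⟨(t, c), Finset.mem_product.2 ⟨ht, Finset.mem_Ico.2 ⟨h1, h2⟩⟩, ?_⟩
  refine Finset.mem_image.2 ⟨φ t * a ^ c, hB4 _ hb, ?_⟩
  rw [mul_div_cancel_left]
  exact hi c h1 (by omega) a (hexp a)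

/-- one more dimension -/
lemma box_next (h : Ctx φ π M p e r) (hp : p.Prime) (hexp : ∀ a : A, a ^ p = 1)
    (hπ : ∀ S : Finset C, ∃ S' : Finset A, S'.card ≤ p * S.card ∧ ∀ a, π a ∈ S → a ∈ S')
    {Y P : Finset Fˣ} (hB : Box φ π M e Y P) {L : ℕ} (hL1 : 1 ≤ L) (hLp : L ≤ p) (X : Finset A)
    (hXu : ∀ a ∈ X, ∃ s : Fˣ, φ s = a ∧ En φ M s)
    (hX : (P.card + 1) * (L - 1) * (p * (20 * M + 3)) < X.card) :
    ∃ Y' P' : Finset Fˣ, Box φ π M e Y' P' ∧ Y'.card = Y.card * L ∧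
      P'.card + 1 ≤ (P.card + 1) * (2 * L - 1) := by
  classical
  obtain ⟨a, ha, hav⟩ := exists_next (φ := φ) hp hexp hπ P hLp X hX
  obtain ⟨s, rfl, hs⟩ := hXu a ha
  refine box_step h hB hs hL1 fun t ht c h1 h2 => ?_
  rw [map_mul φ, map_pow φ]
  exact hav t ht c h1 h2

lemma box_zero (φ : Fˣ →* A) (π : A →* C) (M : ℕ) (e : Fˣ) : Box φ π M e {1} ∅ := by
  refine ⟨Finset.mem_singleton_self 1, ?_, ?_, ?_⟩
  · intro y hy z hz hyz
    rw [Finset.mem_singleton] at hy hz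
    exact absurd (hy.trans hz.symm) hyz
  · intro t ht
    exact absurd ht (Finset.notMem_empty t)
  · intro t ht
    exact absurd ht (Finset.notMem_empty t)

/-- full boxes -/
lemma box_full (h : Ctx φ π M p e r) (hp : p.Prime) (hexp : ∀ a : A, a ^ p = 1)
    (hπ : ∀ S : Finset C, ∃ S' : Finset A, S'.card ≤ p * S.card ∧ ∀ a, π a ∈ S → a ∈ S')
    (X : Finset A) (hXu : ∀ a ∈ X, ∃ s : Fˣ, φ s = a ∧ En φ M s) (i : ℕ)
    (hX : ∀ j < i, (2 * p) ^ j * (p - 1) * (p * (20 * M + 3)) < X.card) :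
    ∃ Y P : Finset Fˣ, Box φ π M e Y P ∧ Y.card = p ^ i ∧ P.card + 1 ≤ (2 * p) ^ i := by
  induction i with
  | zero => exact ⟨{1}, ∅, box_zero φ π M e, by simp, by simp⟩
  | succ i ih =>
    obtain ⟨Y, P, hB, h1, h2⟩ := ih fun j hj => hX j (by omega)
    obtain ⟨Y', P', hB', h3, h4⟩ := box_next h hp hexp hπ hB hp.one_le le_rfl X hXu
      (lt_of_le_of_lt (Nat.mul_le_mul_right _ (Nat.mul_le_mul_right _ h2)) (hX i (by omega)))
    refine ⟨Y', P', hB', by rw [h3, h1, pow_succ], h4.trans ?_⟩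
    rw [pow_succ]
    exact Nat.mul_le_mul h2 (by omega)

/-- boxes of the right size -/
theorem exists_box (h : Ctx φ π M p e r) (hp : p.Prime) (hexp : ∀ a : A, a ^ p = 1)
    (hπ : ∀ S : Finset C, ∃ S' : Finset A, S'.card ≤ p * S.card ∧ ∀ a, π a ∈ S → a ∈ S')
    (X : Finset A) (hXu : ∀ a ∈ X, ∃ s : Fˣ, φ s = a ∧ En φ M s) {K k : ℕ} (hK : 1 ≤ K)
    (hk : 2 * K ≤ p ^ k) (hX : 2 ^ k * K * (p * (20 * M + 3)) < X.card) :
    ∃ Y P : Finset Fˣ, Box φ π M e Y P ∧ 2 * K ≤ Y.card ∧ P.card + 1 ≤ 2 ^ k * Y.card := by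
  obtain ⟨k', hk1, hk2, hk3⟩ : ∃ k' : ℕ, k' + 1 ≤ k ∧ p ^ k' < 2 * K ∧ 2 * K ≤ p ^ (k' + 1) := by
    have hex : ∃ n : ℕ, 2 * K ≤ p ^ n := ⟨k, hk⟩
    classical
    have h1 := Nat.find_spec hex
    have h2 : Nat.find hex ≠ 0 := by
      intro h3
      rw [h3, pow_zero] at h1
      omega
    obtain ⟨m, hm⟩ := Nat.exists_eq_succ_of_ne_zero h2
    refine ⟨m, ?_, ?_, ?_⟩
    · have := Nat.find_min' hex hk
      omega
    · have := Nat.find_min hex (m := m) (by omega)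
      omega
    · rw [hm] at h1
      exact h1
  -- the last side
  have hpk : 0 < p ^ k' := pow_pos hp.pos _
  obtain ⟨L, hL1, hL2, hL3, hL4⟩ : ∃ L : ℕ, 1 ≤ L ∧ L ≤ p ∧ 2 * K ≤ p ^ k' * L ∧
      p ^ k' * (L - 1) < 2 * K := by
    have hex : ∃ n : ℕ, 2 * K ≤ p ^ k' * n := ⟨p, by rw [← pow_succ]; exact hk3⟩
    classical
    have h1 := Nat.find_spec hex
    have h2 : Nat.find hex ≠ 0 := by
      intro h3
      rw [h3, mul_zero] at h1
      omega
    obtain ⟨m, hm⟩ := Nat.exists_eq_succ_of_ne_zero h2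
    refine ⟨m + 1, by omega, ?_, ?_, ?_⟩
    · have := Nat.find_min' hex (m := p) (by rw [← pow_succ]; exact hk3)
      omega
    · rw [hm] at h1
      exact h1
    · have := Nat.find_min hex (m := m) (by omega)
      rw [Nat.add_sub_cancel]
      omega
  have h2k : 2 ^ (k' + 1) ≤ 2 ^ k := Nat.pow_le_pow_right (by norm_num) hk1
  obtain ⟨Y, P, hB, h1, h2⟩ := box_full h hp hexp hπ X hXu k' fun j hj => by
    refine lt_of_le_of_lt (Nat.mul_le_mul_right _ ?_) hX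
    have e1 : 2 ^ j ≤ 2 ^ k' := Nat.pow_le_pow_right (by norm_num) hj.le
    have e2 : p ^ j * (p - 1) ≤ 2 * K := by
      calc p ^ j * (p - 1) ≤ p ^ j * p := Nat.mul_le_mul_left _ (by omega)
        _ = p ^ (j + 1) := by rw [pow_succ]
        _ ≤ p ^ k' := Nat.pow_le_pow_right hp.pos hj
        _ ≤ 2 * K := hk2.le
    calc (2 * p) ^ j * (p - 1) = 2 ^ j * (p ^ j * (p - 1)) := by rw [mul_pow]; ring
      _ ≤ 2 ^ k' * (2 * K) := Nat.mul_le_mul e1 e2
      _ = 2 ^ (k' + 1) * K := by rw [pow_succ]; ring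
      _ ≤ 2 ^ k * K := Nat.mul_le_mul_right _ h2k
  obtain ⟨Y', P', hB', h3, h4⟩ := box_next h hp hexp hπ hB hL1 hL2 X hXu (by
    refine lt_of_le_of_lt (Nat.mul_le_mul_right _ ?_) hX
    calc (P.card + 1) * (L - 1) ≤ (2 * p) ^ k' * (L - 1) := Nat.mul_le_mul_right _ h2
      _ = 2 ^ k' * (p ^ k' * (L - 1)) := by rw [mul_pow]; ring
      _ ≤ 2 ^ k' * (2 * K) := Nat.mul_le_mul_left _ hL4.le
      _ = 2 ^ (k' + 1) * K := by rw [pow_succ]; ring
      _ ≤ 2 ^ k * K := Nat.mul_le_mul_right _ h2k)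
  refine ⟨Y', P', hB', by rw [h3, h1]; exact hL3, h4.trans ?_⟩
  calc (P.card + 1) * (2 * L - 1) ≤ (2 * p) ^ k' * (2 * L) := Nat.mul_le_mul h2 (by omega)
    _ = 2 ^ (k' + 1) * (p ^ k' * L) := by rw [mul_pow, pow_succ]; ring
    _ = 2 ^ (k' + 1) * Y'.card := by rw [h3, h1]
    _ ≤ 2 ^ k * Y'.card := Nat.mul_le_mul_right _ h2k

end

end Pool.Agent.Q10.EPV
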