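import Mathlib
import Pool.Agent.Q10.EPV.Box

set_option autoImplicit false

/-! Counting the classes that are not rigid. -/

namespace Pool.Agent.Q10.EPV

open Pool.Agent.Y920.EP Pool.Agent.Y705.EP

section

variable {F : Type} [Field F] {A : Type} [CommGroup A] {φ : Fˣ →* A} {C : Type} [CommGroup C]
  {π : A →* C} {M p : ℕ} {e r : Fˣ}

/-- differences of `p`-th powers -/
lemma exists_diff (h : Ctx φ π M p e r) {ζ : Fˣ} (hζ : IsPrimitiveRoot ζ p) (heζ : e = -ζ)
    {t : Fˣ} (ht : Fine φ π M e t) :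
    ∃ d : Fˣ, (d : F) = 1 - (t : F) ^ p ∧ En φ (p * (2 * M)) d := by
  classical
  obtain ⟨-, c2, -⟩ := t_CALC F A φ M h.neg h.hl
  have hp0 : 0 < p := h.pos
  have _ : NeZero p := ⟨hp0.ne'⟩
  have hζF : IsPrimitiveRoot (ζ : F) p := by
    rwa [IsPrimitiveRoot.coe_units_iff]
  have hζe : ζ = e ^ (p + 1) := by
    rw [pow_succ, h.root, heζ]
    simp
  have step : ∀ η : F, η ∈ Polynomial.nthRootsFinset p (1 : F) →
      ∃ v : Fˣ, (v : F) = 1 - η * t ∧ En φ (2 * M) v := by
    intro η hη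
    rw [Polynomial.mem_nthRootsFinset hp0] at hη
    obtain ⟨i, -, hi⟩ := hζF.eq_pow_of_pow_eq_one hη
    have h1 : -(ζ ^ i) = e ^ (p + (p + 1) * i) := by
      rw [pow_add, h.root, pow_mul, ← hζe]
      simp
    have hE := ht.2 (p + (p + 1) * i)
    rw [← h1] at hE
    have hu : φ (-(ζ ^ i) * t) ≠ 1 := by
      intro h2
      apply ht.1
      have h3 : π (φ (-(ζ ^ i) * t)) = π (φ t) := by
        rw [h1, map_mul, map_mul, map_pow, map_pow, h.one, one_pow, one_mul]
      rw [← h3, h2, map_one]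
    obtain ⟨v, hv⟩ := exists_one_add h.neg hu
    refine ⟨v, ?_, ?_⟩
    · rw [hv, ← hi, Units.val_mul, Units.val_neg, Units.val_pow_eq_pow_val]
      ring
    · have := c2 _ _ _ hu hE hv
      rwa [← two_mul] at this
  choose! v hv hvE using step
  refine ⟨∏ η ∈ Polynomial.nthRootsFinset p (1 : F), v η, ?_, ?_⟩
  · rw [Units.coe_prod]
    have h1 := hζF.pow_sub_pow_eq_prod_sub_mul (1 : F) (t : F) hp0
    rw [one_pow] at h1
    rw [h1]
    exact Finset.prod_congr rfl fun η hη => hv η hη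
  · have h1 := en_prod (Polynomial.nthRootsFinset p (1 : F)) (k := 2 * M) (f := v) hvE
    rw [hζF.card_nthRootsFinset] at h1
    exact h1

open scoped Classical in
/-- counting coincidences -/
theorem count_aux {K : ℕ} (hS : VSys φ K) (h : Ctx φ π M p e r) {ζ : Fˣ}
    (hζ : IsPrimitiveRoot ζ p) (heζ : e = -ζ) (hexp : ∀ a : A, a ^ p = 1)
    {Y P : Finset Fˣ} (hB : Box φ π M e Y P) (X : Finset A)
    (hX : ∀ a ∈ X, a ≠ 1 ∧ ∃ s : Fˣ, φ s = a ∧ En φ M s)
    (hX1 : ∀ a ∈ X, a⁻¹ ∉ SUc φ (MonoidHom.id A) ((4 * p + 6) * M)) :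
    X.card * Y.card ≤ X.card * K + P.card * ((2 * ((4 * p + 6) * M) + 1) * K) := by
  obtain ⟨-, c2, -⟩ := t_CALC F A φ M h.neg h.hl
  obtain ⟨NF, hNF1, hNF2⟩ := exists_NF hS
  -- choices
  have hr : ∀ a : A, ∃ s : Fˣ, a ∈ X → φ s = a ∧ En φ M s := by
    intro a
    by_cases ha : a ∈ X
    · obtain ⟨s, hs⟩ := (hX a ha).2
      exact ⟨s, fun _ => hs⟩
    · exact ⟨1, fun h => absurd h ha⟩
  choose ρ hρ using hr
  have hyc : ∀ (a : A) (y : Fˣ), a ∈ X → φ (y ^ p * ρ a) = a := by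
    intro a y ha
    rw [map_mul, map_pow, hexp, one_mul, (hρ a ha).1]
  have hx : ∀ (a : A) (y : Fˣ), ∃ x : Fˣ, a ∈ X → (x : F) = 1 + (y ^ p * ρ a : Fˣ) := by
    intro a y
    by_cases ha : a ∈ X
    · obtain ⟨x, hx⟩ := exists_one_add h.neg (y := y ^ p * ρ a)
        (by rw [hyc a y ha]; exact (hX a ha).1)
      exact ⟨x, fun _ => hx⟩
    · exact ⟨1, fun h => absurd h ha⟩
  choose x hx using hx
  have hd : ∀ t : Fˣ, ∃ d : Fˣ, t ∈ P → (d : F) = 1 - (t : F) ^ p ∧ En φ (p * (2 * M)) d := by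
    intro t
    by_cases ht : t ∈ P
    · obtain ⟨d, hd⟩ := exists_diff h hζ heζ (hB.fine t ht)
      exact ⟨d, fun _ => hd⟩
    · exact ⟨1, fun h => absurd h ht⟩
  choose d hd using hd
  have hbase : ∀ (a c : A), ∃ z : Fˣ, (∃ y ∈ Y, φ (x a y) = c) → z ∈ Y ∧ φ (x a z) = c := by
    intro a c
    by_cases hc : ∃ y ∈ Y, φ (x a y) = c
    · obtain ⟨y, hy⟩ := hc
      exact ⟨y, fun _ => hy⟩
    · exact ⟨1, fun h => absurd h hc⟩
  choose base hbase using hbase
  have hEy : ∀ y ∈ Y, En φ (p * M) (y ^ p) := by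
    intro y hy
    apply en_pow
    by_cases h1 : y = 1
    · rw [h1]; exact en_one _
    · have h2 := (hB.fine _ (hB.div y hy 1 hB.one h1)).2 0
      rwa [pow_zero, one_mul, div_one] at h2
  have hEr : ∀ a ∈ X, ∀ y ∈ Y, En φ (p * M + M) (y ^ p * ρ a) := fun a ha y hy =>
    en_mul (hEy y hy) (hρ a ha).2
  have hEx : ∀ a ∈ X, ∀ y ∈ Y, En φ (p * M + M + M) (x a y) := fun a ha y hy =>
    c2 _ _ _ (by rw [hyc a y ha]; exact (hX a ha).1) (hEr a ha y hy) (hx a y ha)
  have hneg1 : En φ (3 * M) (-1 : Fˣ) := by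
    have := rootQ (π := MonoidHom.id A) h.neg h.hl h.rne h.ren (n := 2) (e := -1) (by norm_num)
      (by simp) (by rw [h.neg, map_one]) 1
    rw [pow_one] at this
    exact this
  have hval : ∀ a ∈ X, ∀ y : Fˣ, φ (x a y) ∈ NF a := by
    intro a ha y
    rw [hNF2 a _ (hX a ha).1]
    exact ⟨y ^ p * ρ a, x a y, hyc a y ha, hx a y ha, rfl⟩
  obtain ⟨m, hm⟩ : ∃ m : ℕ, m = (4 * p + 6) * M := ⟨_, rfl⟩
  rw [← hm] at hX1 ⊢
  obtain ⟨S, hSd⟩ : ∃ S : Finset A, S = (suc_fin φ (MonoidHom.id A) m).toFinset := ⟨_, rfl⟩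
  have hSc : S.card ≤ 2 * m + 1 := by rw [hSd]; exact suc_card _ _ _
  have hSm : ∀ g : A, g ∈ S ↔ g ∈ SUc φ (MonoidHom.id A) m := by
    intro g
    rw [hSd, Set.Finite.mem_toFinset]
  have hvne : ∀ a ∈ X, ∀ y ∈ Y, φ (x a y) ≠ a := by
    intro a ha y hy hc
    apply hX1 a ha
    refine ⟨(y ^ p * ρ a)⁻¹, by rw [MonoidHom.id_apply, map_inv, hyc a y ha], ?_, ?_⟩
    · refine enQ_of (en_mono ?_ (en_inv (hEr a ha y hy)))
      rw [hm]
      nlinarith
    · refine ⟨x a y / (y ^ p * ρ a), ?_, ?_⟩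
      · rw [Units.val_div_eq_div_val, hx a y ha, Units.val_one, Units.val_inv_eq_inv_val]
        have : ((y ^ p * ρ a : Fˣ) : F) ≠ 0 := Units.ne_zero _
        field_simp
        ring
      · rw [map_div, hyc a y ha, hc, div_self', map_one]
  let T0 : Finset (Fˣ × A × A) := P.biUnion fun t => S.biUnion fun g =>
    (NF (g / φ (d t))).image fun b => (t, g / φ (d t) * b⁻¹, b⁻¹)
  have hT0 : T0.card ≤ P.card * ((2 * m + 1) * K) := by
    refine Finset.card_biUnion_le.trans ?_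
    refine (Finset.sum_le_card_nsmul _ _ ((2 * m + 1) * K) fun t _ => ?_).trans_eq
      (smul_eq_mul _ _)
    refine Finset.card_biUnion_le.trans ?_
    refine (Finset.sum_le_card_nsmul _ _ K fun g _ =>
      Finset.card_image_le.trans (hNF1 _)).trans ?_
    rw [smul_eq_mul]
    exact Nat.mul_le_mul_right _ hSc
  let T1 : Finset (A × Fˣ) := X.biUnion fun a => (NF a).image fun c => (a, base a c)
  have hT1 : T1.card ≤ X.card * K := by
    refine Finset.card_biUnion_le.trans ?_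
    exact (Finset.sum_le_card_nsmul _ _ K fun a _ =>
      Finset.card_image_le.trans (hNF1 _)).trans_eq (smul_eq_mul _ _)
  have h1 : ((X ×ˢ Y).filter fun q => q.2 = base q.1 (φ (x q.1 q.2))) ⊆ T1 := by
    rintro ⟨a, y⟩ hq
    rw [Finset.mem_filter, Finset.mem_product] at hq
    refine Finset.mem_biUnion.2 ⟨a, hq.1.1, Finset.mem_image.2 ⟨φ (x a y), hval a hq.1.1 y, ?_⟩⟩
    have := hq.2
    dsimp only at this
    rw [← this]
  have h2 : ((X ×ˢ Y).filter fun q => ¬ q.2 = base q.1 (φ (x q.1 q.2))).card ≤ T0.card := by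
    refine Finset.card_le_card_of_injOn
      (fun q => (q.2 / base q.1 (φ (x q.1 q.2)), q.1, φ (x q.1 q.2))) ?_ ?_
    · rintro ⟨a, y⟩ hq
      rw [Finset.mem_coe, Finset.mem_filter, Finset.mem_product] at hq
      obtain ⟨⟨ha, hy⟩, hne⟩ := hq
      dsimp only at ha hy hne ⊢
      obtain ⟨z, hz⟩ : ∃ z, z = base a (φ (x a y)) := ⟨_, rfl⟩
      rw [← hz] at hne ⊢
      obtain ⟨hzY, hzc⟩ : z ∈ Y ∧ φ (x a z) = φ (x a y) := by
        rw [hz]
        exact hbase a _ ⟨y, hy, rfl⟩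
      have htP : y / z ∈ P := hB.div y hy z hzY hne
      obtain ⟨hd1, hd2⟩ := hd _ htP
      -- the small unit
      have hw : φ (-1 * (z ^ p * ρ a) * d (y / z) / x a z) = a * φ (d (y / z)) / φ (x a z) := by
        rw [map_div, map_mul, map_mul, h.neg, one_mul, hyc a z ha]
      have hwS : φ (-1 * (z ^ p * ρ a) * d (y / z) / x a z) ∈ S := by
        rw [hSm]
        refine ⟨_, rfl, ?_, ?_⟩
        · refine enQ_of (en_mono ?_ (en_div (en_mul (en_mul hneg1 (hEr a ha z hzY)) hd2)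
            (hEx a ha z hzY)))
          rw [hm]
          apply le_of_eq
          ring
        · refine ⟨x a y / x a z, ?_, ?_⟩
          · have h3 : (x a z : F) ≠ 0 := Units.ne_zero _
            have h4 : (z : F) ≠ 0 := Units.ne_zero _
            have h5 : (x a z : F) = 1 + z ^ p * ρ a := by
              rw [hx a z ha, Units.val_mul, Units.val_pow_eq_pow_val]
            have h6 : (x a y : F) = 1 + y ^ p * ρ a := by
              rw [hx a y ha, Units.val_mul, Units.val_pow_eq_pow_val]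
            have h7 : (x a y : F) = x a z + -1 * ((z : F) ^ p * ρ a) * (1 - ((y : F) / z) ^ p) := by
              rw [h5, h6, div_pow]
              field_simp
              ring
            rw [Units.val_div_eq_div_val, Units.val_one, Units.val_div_eq_div_val, Units.val_mul,
              Units.val_mul, hd1, Units.val_neg, Units.val_one, Units.val_mul,
              Units.val_pow_eq_pow_val, Units.val_div_eq_div_val, h7, add_div, div_self h3]
          · rw [map_div, hzc, div_self', map_one]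
      have hg : φ (-1 * (z ^ p * ρ a) * d (y / z) / x a z) / φ (d (y / z)) =
          a * (φ (x a y))⁻¹ := by
        rw [hw, hzc, div_right_comm, mul_div_cancel_right, div_eq_mul_inv]
      refine Finset.mem_biUnion.2 ⟨y / z, htP, Finset.mem_biUnion.2 ⟨_, hwS, ?_⟩⟩
      refine Finset.mem_image.2 ⟨(φ (x a y))⁻¹, ?_, ?_⟩
      · rw [hg, hNF2]
        · apply dv_quot h.neg
          exact ⟨y ^ p * ρ a, x a y, hyc a y ha, hx a y ha, rfl⟩
        · rw [Ne, mul_inv_eq_one]
          exact fun hc => hvne a ha y hy hc.symm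
      · rw [hg, inv_inv, inv_mul_cancel_right]
    · rintro ⟨a, y⟩ hq ⟨a', y'⟩ hq' heq
      dsimp only at heq
      rw [Prod.mk.injEq, Prod.mk.injEq] at heq
      obtain ⟨e1, e2, e3⟩ := heq
      subst e2
      rw [e3] at e1
      rw [div_left_inj] at e1
      rw [e1]
  have h3 := Finset.card_filter_add_card_filter_not (s := X ×ˢ Y)
    (fun q => q.2 = base q.1 (φ (x q.1 q.2)))
  rw [Finset.card_product] at h3
  rw [← h3]
  exact Nat.add_le_add ((Finset.card_le_card h1).trans hT1) (h2.trans hT0)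

end

end Pool.Agent.Q10.EPV
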