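import Mathlib
import Pool.Agent.Q10.EPV.Count
import Pool.Agent.Y564.EP.Grp
import Pool.Agent.Y920.EP.FieldP

set_option autoImplicit false

/-! The number of classes that are not rigid, and the group generated by them. -/

namespace Pool.Agent.Q10.EPV

open Pool.Agent.Y920.EP Pool.Agent.Y705.EP

lemma arith1 (p K k : ℕ) (hp : 3 ≤ p) (hK : 1 ≤ K) (hk : 1 ≤ k) :
    2 ^ k * K * (p * (20 * K ^ 2 + 3)) ≤ 31 * 2 ^ k * p * K ^ 3 := by
  have h1 : 20 * K ^ 2 + 3 ≤ 31 * K ^ 2 := by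
    have : 1 ≤ K ^ 2 := Nat.one_le_pow _ _ hK
    omega
  calc 2 ^ k * K * (p * (20 * K ^ 2 + 3)) ≤ 2 ^ k * K * (p * (31 * K ^ 2)) := by gcongr
    _ = 31 * 2 ^ k * p * K ^ 3 := by ring

lemma arith2 (p K k m x : ℕ) (hp : 3 ≤ p) (hK : 1 ≤ K) (hk : 1 ≤ k)
    (hm : m = (4 * p + 6) * K ^ 2) (hx : x ≤ 2 ^ (k + 1) * ((2 * m + 1) * K) + (2 * m + 1)) :
    x ≤ 31 * 2 ^ k * p * K ^ 3 := by
  have h1 : 1 ≤ K ^ 2 := Nat.one_le_pow _ _ hK
  have h2 : 2 * m + 1 ≤ (8 * p + 13) * K ^ 2 := by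
    rw [hm]
    nlinarith
  have h3 : 3 * (8 * p + 13) ≤ 37 * p := by omega
  have h4 : 2 ≤ 2 ^ k := by
    calc 2 = 2 ^ 1 := (pow_one 2).symm
      _ ≤ 2 ^ k := Nat.pow_le_pow_right (by norm_num) hk
  have h5 : 2 * (2 ^ (k + 1) * K + 1) ≤ 5 * (2 ^ k * K) := by
    have : 2 ≤ 2 ^ k * K := by nlinarith
    rw [pow_succ]
    nlinarith
  have h6 : x ≤ (2 * m + 1) * (2 ^ (k + 1) * K + 1) := by
    refine hx.trans (le_of_eq ?_)
    ring
  have h7 : 6 * x ≤ 185 * (2 ^ k * p * K ^ 3) := by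
    calc 6 * x ≤ 6 * ((2 * m + 1) * (2 ^ (k + 1) * K + 1)) := Nat.mul_le_mul_left _ h6
      _ ≤ 6 * (((8 * p + 13) * K ^ 2) * (2 ^ (k + 1) * K + 1)) := by gcongr
      _ = (3 * (8 * p + 13)) * K ^ 2 * (2 * (2 ^ (k + 1) * K + 1)) := by ring
      _ ≤ (37 * p) * K ^ 2 * (5 * (2 ^ k * K)) := by gcongr
      _ = 185 * (2 ^ k * p * K ^ 3) := by ring
  have h8 : 31 * 2 ^ k * p * K ^ 3 = 31 * (2 ^ k * p * K ^ 3) := by ring
  rw [h8]
  omega

lemma four_le (j : ℕ) (hj : 2 ≤ j) : 4 * j ≤ 3 ^ j := by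
  induction j, hj using Nat.le_induction with
  | base => norm_num
  | succ n hn ih =>
    rw [pow_succ]
    omega

lemma arith3 (p K k i c : ℕ) (hp : 3 ≤ p) (hK : 1 ≤ K) (hk : 2 * K ≤ p ^ k)
    (hk1 : 1 ≤ k) (hc : c ≤ 31 * 2 ^ k * p * K ^ 3)
    (h : p ^ i ≤ c + 3 + 4 * (i * (p - 1) * K ^ 2)) : p ^ i ≤ 64 * 2 ^ k * p * K ^ 3 := by
  by_contra hcon
  push Not at hcon
  obtain ⟨Q, hQ⟩ : ∃ Q, Q = 2 ^ k * p * K ^ 3 := ⟨_, rfl⟩
  have e1 : 31 * 2 ^ k * p * K ^ 3 = 31 * Q := by rw [hQ]; ring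
  have e2 : 64 * 2 ^ k * p * K ^ 3 = 64 * Q := by rw [hQ]; ring
  rw [e1] at hc
  rw [e2] at hcon
  have h2 : 2 ≤ 2 ^ k := by
    calc 2 = 2 ^ 1 := (pow_one 2).symm
      _ ≤ 2 ^ k := Nat.pow_le_pow_right (by norm_num) hk1
  have h3 : 6 ≤ Q := by
    have h4 : 1 ≤ K ^ 3 := Nat.one_le_pow _ _ hK
    have h5 : 6 ≤ 2 ^ k * p := by nlinarith
    rw [hQ]
    nlinarith
  have h4 : i * (p - 1) * K ^ 2 ≤ i * p * K ^ 2 := by
    gcongr
    omega
  have h5 : p ^ i < 8 * (i * p * K ^ 2) := by omega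
  -- `i` is large
  have h6 : 8 * (2 ^ k * K) < i := by
    have h7 : (p * K ^ 2) * (64 * (2 ^ k * K)) < (p * K ^ 2) * (8 * i) := by
      calc (p * K ^ 2) * (64 * (2 ^ k * K)) = 64 * Q := by rw [hQ]; ring
        _ < p ^ i := hcon
        _ < 8 * (i * p * K ^ 2) := h5
        _ = (p * K ^ 2) * (8 * i) := by ring
    have := lt_of_mul_lt_mul_left h7 (Nat.zero_le _)
    omega
  have h7 : k + 1 ≤ 2 ^ k := Nat.lt_two_pow_self
  have h8 : 2 ^ k ≤ 2 ^ k * K := Nat.le_mul_of_pos_right _ hK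
  obtain ⟨j, hj⟩ : ∃ j, i = j + (2 * k + 1) := ⟨i - (2 * k + 1), by omega⟩
  have h9 : 2 ≤ j := by omega
  have h10 : i ≤ 2 * j := by omega
  have h11 : 4 * K ^ 2 ≤ p ^ (2 * k) := by
    calc 4 * K ^ 2 = (2 * K) ^ 2 := by ring
      _ ≤ (p ^ k) ^ 2 := Nat.pow_le_pow_left hk 2
      _ = p ^ (2 * k) := by rw [← pow_mul, mul_comm]
  have h12 : p ^ j * p ^ (2 * k + 1) < 2 * i * p ^ (2 * k + 1) := by
    calc p ^ j * p ^ (2 * k + 1) = p ^ i := by rw [hj, ← pow_add p j]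
      _ < 8 * (i * p * K ^ 2) := h5
      _ = 2 * i * p * (4 * K ^ 2) := by ring
      _ ≤ 2 * i * p * p ^ (2 * k) := Nat.mul_le_mul_left _ h11
      _ = 2 * i * p ^ (2 * k + 1) := by rw [pow_succ]; ring
  have h13 : p ^ j < 2 * i := lt_of_mul_lt_mul_right h12 (Nat.zero_le _)
  have h14 := four_le j h9
  have h15 : 3 ^ j ≤ p ^ j := Nat.pow_le_pow_left hp j
  omega

section

variable {F : Type} [Field F] {A : Type} [CommGroup A] {φ : Fˣ →* A}

/-- the quotient by a cyclic group of order dividing `p` -/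
lemma preimage_small {p : ℕ} (hp : 1 ≤ p) (z : A) (hz : z ^ p = 1)
    (S : Finset (A ⧸ Subgroup.zpowers z)) :
    ∃ S' : Finset A, S'.card ≤ p * S.card ∧
      ∀ a, QuotientGroup.mk' (Subgroup.zpowers z) a ∈ S → a ∈ S' := by
  classical
  refine ⟨S.biUnion fun g => (Finset.range p).image fun i => Quotient.out g * z ^ i, ?_, ?_⟩
  · refine Finset.card_biUnion_le.trans ?_
    refine (Finset.sum_le_card_nsmul _ _ p fun g _ =>
      Finset.card_image_le.trans_eq (Finset.card_range p)).trans_eq ?_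
    rw [smul_eq_mul, mul_comm]
  · intro a ha
    refine Finset.mem_biUnion.2 ⟨_, ha, ?_⟩
    have h1 : (Quotient.out (QuotientGroup.mk' (Subgroup.zpowers z) a))⁻¹ * a ∈
        Subgroup.zpowers z := by
      rw [← QuotientGroup.eq]
      exact Quotient.out_eq _
    rw [Subgroup.mem_zpowers_iff] at h1
    obtain ⟨n, hn⟩ := h1
    have hp0 : (p : ℤ) ≠ 0 := by
      have : p ≠ 0 := by omega
      exact_mod_cast this
    have hnn : 0 ≤ n % p := Int.emod_nonneg _ hp0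
    have hlt : n % p < p := Int.emod_lt_of_pos _ (by exact_mod_cast hp)
    refine Finset.mem_image.2 ⟨(n % p).toNat, Finset.mem_range.2 (by omega), ?_⟩
    have e1 : z ^ n = z ^ (n % p) := by
      conv_lhs => rw [← Int.emod_add_mul_ediv n p]
      rw [zpow_add, zpow_mul, zpow_natCast, hz, one_zpow, mul_one]
    have e2 : z ^ (n % p) = z ^ ((n % p).toNat : ℕ) := by
      rw [← zpow_natCast, Int.toNat_of_nonneg hnn]
    rw [← e2, ← e1, hn, mul_inv_cancel_left]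

/-- the number of classes that are not rigid -/
theorem nr_bound {p : ℕ} (hp : p.Prime) (hp2 : p ≠ 2) {ζ : Fˣ} (hζ : IsPrimitiveRoot ζ p)
    {K k : ℕ} (hS : VSys φ K) (hexp : ∀ a : A, a ^ p = 1) (hK : 1 ≤ K) (hk : 2 * K ≤ p ^ k) :
    (NR φ).Finite ∧ (NR φ).ncard ≤ 31 * 2 ^ k * p * K ^ 3 := by
  classical
  have hL : HL φ (K ^ 2) := hl_of hS
  have p3 : 3 ≤ p := by
    have := hp.two_le
    omega
  have k1 : 1 ≤ k := by
    by_contra hc
    have : k = 0 := by omega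
    rw [this, pow_zero] at hk
    omega
  have hodd : Odd p := hp.odd_of_ne_two hp2
  have hunit : ∀ a ∈ NR φ, a ≠ 1 ∧ ∃ s : Fˣ, φ s = a ∧ En φ (K ^ 2) s := by
    rintro a ⟨ha1, r, s, hr, hrs, hs1, hs2⟩
    refine ⟨ha1, r, hr, ?_⟩
    exact (t_CALC F A φ (K ^ 2) hS.neg hL).2.2 r s hrs (by rw [hr]; exact ha1) hs1
      (by rw [hr]; exact hs2)
  have key : ∀ X : Finset A, (∀ a ∈ X, a ∈ NR φ) → X.card ≤ 31 * 2 ^ k * p * K ^ 3 := by
    intro X hX
    rcases X.eq_empty_or_nonempty with rfl | ⟨a0, ha0⟩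
    · simp
    obtain ⟨ha01, r, hr, hrE⟩ := hunit a0 (hX a0 ha0)
    have hz : (φ ζ) ^ p = 1 := hexp _
    have hctx : Ctx φ (QuotientGroup.mk' (Subgroup.zpowers (φ ζ))) (K ^ 2) p (-ζ) r := by
      refine ⟨hS.neg, hL, hp.one_le, ?_, ?_, by rw [hr]; exact ha01, hrE⟩
      · rw [hodd.neg_pow, hζ.pow_eq_one]
      · rw [phi_neg hS.neg, ← MonoidHom.mem_ker, QuotientGroup.ker_mk']
        exact Subgroup.mem_zpowers _
    by_cases hbig : 2 ^ k * K * (p * (20 * K ^ 2 + 3)) < X.card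
    swap
    · rw [not_lt] at hbig
      exact hbig.trans (arith1 p K k p3 hK k1)
    obtain ⟨Y, P, hB, hY, hP⟩ := exists_box hctx hp hexp
      (fun S => preimage_small hp.one_le (φ ζ) hz S) X (fun a ha => (hunit a (hX a ha)).2) hK hk
      hbig
    obtain ⟨m, hm⟩ : ∃ m : ℕ, m = (4 * p + 6) * K ^ 2 := ⟨_, rfl⟩
    obtain ⟨S, hSd⟩ : ∃ S : Finset A, S = (suc_fin φ (MonoidHom.id A) m).toFinset := ⟨_, rfl⟩
    have hSc : S.card ≤ 2 * m + 1 := by rw [hSd]; exact suc_card _ _ _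
    have hSm : ∀ g : A, g ∈ S ↔ g ∈ SUc φ (MonoidHom.id A) m := by
      intro g
      rw [hSd, Set.Finite.mem_toFinset]
    have h1 : (X.filter fun a => ¬ a⁻¹ ∈ S).card * Y.card ≤
        (X.filter fun a => ¬ a⁻¹ ∈ S).card * K + P.card * ((2 * m + 1) * K) := by
      rw [hm]
      refine count_aux hS hctx hζ rfl hexp hB _ ?_ ?_
      · intro a ha
        exact hunit a (hX a (Finset.mem_filter.1 ha).1)
      · intro a ha
        have := (Finset.mem_filter.1 ha).2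
        rw [hSm, hm] at this
        exact this
    have h2 : (X.filter fun a => a⁻¹ ∈ S).card ≤ 2 * m + 1 := by
      refine le_trans ?_ hSc
      refine Finset.card_le_card_of_injOn (fun a => a⁻¹) ?_ ?_
      · intro a ha
        exact (Finset.mem_filter.1 ha).2
      · intro a _ b _ hab
        exact inv_injective hab
    have h3 := Finset.card_filter_add_card_filter_not (s := X) (fun a => a⁻¹ ∈ S)
    obtain ⟨x1, hx1⟩ : ∃ x1, x1 = (X.filter fun a => ¬ a⁻¹ ∈ S).card := ⟨_, rfl⟩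
    rw [← hx1] at h1 h3
    have h4 : x1 ≤ 2 ^ (k + 1) * ((2 * m + 1) * K) := by
      have hY0 : 0 < Y.card := by omega
      have h5 : x1 * Y.card * 2 ≤ x1 * Y.card + 2 * (P.card * ((2 * m + 1) * K)) := by
        have h6 : x1 * (2 * K) ≤ x1 * Y.card := Nat.mul_le_mul_left _ hY
        have h7 : x1 * (2 * K) = 2 * (x1 * K) := by ring
        omega
      have h8 : x1 * Y.card ≤ 2 ^ (k + 1) * ((2 * m + 1) * K) * Y.card := by
        calc x1 * Y.card ≤ 2 * (P.card * ((2 * m + 1) * K)) := by omega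
          _ ≤ 2 * ((2 ^ k * Y.card) * ((2 * m + 1) * K)) := by
            gcongr
            omega
          _ = 2 ^ (k + 1) * ((2 * m + 1) * K) * Y.card := by rw [pow_succ]; ring
      exact Nat.le_of_mul_le_mul_right h8 hY0
    refine arith2 p K k m X.card p3 hK k1 hm ?_
    omega
  have hfin : (NR φ).Finite := by
    by_contra hinf
    obtain ⟨X, hX, hc⟩ := Set.Infinite.exists_subset_card_eq hinf (31 * 2 ^ k * p * K ^ 3 + 1)
    have := key X (fun a ha => hX ha)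
    omega
  refine ⟨hfin, ?_⟩
  rw [Set.ncard_eq_toFinset_card _ hfin]
  exact key _ fun a ha => (Set.Finite.mem_toFinset hfin).1 ha

/-- the group generated by the classes that are not rigid -/
theorem grp_bound {p : ℕ} (hp : p.Prime) (hp2 : p ≠ 2) {K k : ℕ} (hS : VSys φ K)
    (hexp : ∀ a : A, a ^ p = 1) (hK : 1 ≤ K) (hk : 2 * K ≤ p ^ k)
    (hfin : (NR φ).Finite) (hcard : (NR φ).ncard ≤ 31 * 2 ^ k * p * K ^ 3) :
    Nat.card (Subgroup.closure (NR φ)) ≠ 0 ∧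
      Nat.card (Subgroup.closure (NR φ)) ≤ 64 * 2 ^ k * p * K ^ 3 := by
  classical
  have hL : HL φ (K ^ 2) := hl_of hS
  have hp3 : 3 ≤ p := by
    have := hp.two_le
    omega
  have k1 : 1 ≤ k := by
    by_contra hc
    have : k = 0 := by omega
    rw [this, pow_zero] at hk
    omega
  obtain ⟨i, hi, hr⟩ := Pool.Agent.Y564.EP.step1 (φ := φ) p hp (K ^ 2) hexp hfin.toFinset (by
    intro a h
    obtain ⟨ha1, r, s, hr, hrs, hs1, hs2⟩ := (Set.Finite.mem_toFinset hfin).1 h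
    refine ⟨r, hr, ?_⟩
    exact (t_CALC F A φ (K ^ 2) hS.neg hL).2.2 r s hrs (by rw [hr]; exact ha1) hs1
      (by rw [hr]; exact hs2))
  rw [Set.Finite.coe_toFinset] at hi hr
  obtain ⟨H, hH⟩ : ∃ H : Subgroup A, H = Subgroup.closure (NR φ) := ⟨_, rfl⟩
  rw [← hH] at hi hr ⊢
  have hKf : Finite H := by
    apply Nat.finite_of_card_ne_zero
    rw [hi]
    exact (pow_pos hp.pos i).ne'
  have hKfin : (H : Set A).Finite := Set.toFinite _
  obtain ⟨m, hm⟩ : ∃ m : ℕ, m = i * (p - 1) * K ^ 2 := ⟨_, rfl⟩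
  rw [← hm] at hr
  obtain ⟨G, hGd⟩ : ∃ G : Finset A, G = (suc_fin φ (MonoidHom.id A) m).toFinset := ⟨_, rfl⟩
  have hG : G.card ≤ 2 * m + 1 := by rw [hGd]; exact suc_card _ _ _
  have hGm : ∀ g : A, g ∈ G ↔ g ∈ SUc φ (MonoidHom.id A) m := by
    intro g
    rw [hGd, Set.Finite.mem_toFinset]
  have hsub : hKfin.toFinset ⊆ ({1} ∪ hfin.toFinset) ∪ (G ∪ G.image fun g => g⁻¹) := by
    intro h hh
    have hhK : h ∈ H := by
      have := (Set.Finite.mem_toFinset hKfin).1 hh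
      exact this
    obtain ⟨e, he1, he2⟩ := hr h hhK
    rw [Finset.mem_union, Finset.mem_union, Finset.mem_union, Finset.mem_singleton,
      Set.Finite.mem_toFinset]
    by_cases h1 : h = 1
    · exact Or.inl (Or.inl h1)
    by_cases h2 : h ∈ NR φ
    · exact Or.inl (Or.inr h2)
    right
    rcases ml_of hS.neg (x := e) (by rwa [he1]) (by rwa [he1]) with h3 | h3
    · left
      rw [hGm]
      exact ⟨e, he1, he2, h3⟩
    · right
      rw [Finset.mem_image]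
      refine ⟨h⁻¹, ?_, inv_inv h⟩
      rw [hGm]
      exact ⟨e⁻¹, by rw [MonoidHom.id_apply, map_inv, he1], enQ_inv he2, h3⟩
  have hcardK : hKfin.toFinset.card = p ^ i := by
    rw [← hi, ← Set.ncard_eq_toFinset_card (H : Set A) hKfin]
    exact (Nat.card_coe_set_eq (H : Set A)).symm
  have hle : p ^ i ≤ (NR φ).ncard + 3 + 4 * m := by
    rw [← hcardK]
    refine (Finset.card_le_card hsub).trans ?_
    refine (Finset.card_union_le _ _).trans ?_
    have h1 : ({1} ∪ hfin.toFinset : Finset A).card ≤ 1 + (NR φ).ncard := by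
      refine (Finset.card_union_le _ _).trans ?_
      rw [Finset.card_singleton, ← Set.ncard_eq_toFinset_card (NR φ) hfin]
    have h2 : (G ∪ G.image fun g => g⁻¹).card ≤ (2 * m + 1) + (2 * m + 1) :=
      (Finset.card_union_le _ _).trans (Nat.add_le_add hG (Finset.card_image_le.trans hG))
    omega
  refine ⟨?_, ?_⟩
  · rw [hi]
    exact (pow_pos hp.pos i).ne'
  · rw [hi]
    exact arith3 p K k i _ hp3 hK hk k1 hcard (by rw [← hm]; exact hle)

end

end Pool.Agent.Q10.EPV
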