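import Mathlib
import Pool.Agent.Q10.EPV.Bound
import Pool.Agent.Y920.EP.GalP
import Pool.Agent.Y98.EP.PCD
import Pool.Agent.Y447.EP.WB
import Pool.Agent.Y232.EP.Coarse
import Pool.Agent.Y86.EP.Kum
import Pool.Agent.Y279.EP.Up
import Pool.Agent.Y925.EP.Tower
import Pool.Agent.Y419.EP.Inert
import Pool.Agent.Y469.EP.Max

set_option autoImplicit false

/-! Fields whose forms `x ^ p + a y ^ p` have few classes of values, `p` odd. -/

namespace Pool.Agent.Q10.EPV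

open Pool.Agent.Y920.EP

/-- the set of the nonzero values of `x ^ p + a y ^ p` -/
def valS {F : Type} [Field F] (p : ℕ) (a : Fˣ) : Set Fˣ :=
  {c | ∃ x y : F, (c : F) = x ^ p + a * y ^ p}

lemma vsys {F : Type} [Field F] {A : Type} [CommGroup A] {φ : Fˣ →* A} {p : ℕ} (hp : p.Prime)
    (hp2 : p ≠ 2) (hφ : Function.Surjective φ) (hk : φ.ker = pwG F p) (K : ℕ)
    (hK : ∀ a : Fˣ, a ∉ pwG F p →
      ((QuotientGroup.mk' (pwG F p)) '' valS p a).Finite ∧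
      ((QuotientGroup.mk' (pwG F p)) '' valS p a).ncard ≤ K) :
    VSys φ K := by
  have hodd : Odd p := hp.odd_of_ne_two hp2
  have hmem : ∀ x : Fˣ, φ x = 1 ↔ x ∈ pwG F p := by
    intro x
    rw [← hk, MonoidHom.mem_ker]
  refine ⟨hφ, ?_, ?_⟩
  · rw [hmem, mem_pwG]
    exact ⟨-1, hodd.neg_one_pow.symm⟩
  · intro a ha
    obtain ⟨a, rfl⟩ := hφ a
    have ha' : a ∉ pwG F p := by
      rw [← hmem]
      exact ha
    obtain ⟨h1, h2⟩ := hK a ha'
    obtain ⟨f, hf⟩ : ∃ f : Fˣ ⧸ pwG F p →* A, ∀ x : Fˣ, f (QuotientGroup.mk' (pwG F p) x) = φ x :=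
      ⟨QuotientGroup.lift (pwG F p) φ fun x hx => (hmem x).2 hx, fun x => rfl⟩
    have hsub : Dv φ (φ a) ⊆ f '' ((QuotientGroup.mk' (pwG F p)) '' valS p a) := by
      rintro b ⟨u, v, hu, hv, rfl⟩
      refine ⟨QuotientGroup.mk' (pwG F p) v, ⟨v, ?_, rfl⟩, hf v⟩
      have h3 : u / a ∈ pwG F p := by
        rw [← hmem, map_div, hu, div_self']
      rw [mem_pwG] at h3
      obtain ⟨y, hy⟩ := h3
      refine ⟨1, y, ?_⟩
      rw [hv, one_pow, ← Units.val_pow_eq_pow_val, ← hy, ← Units.val_mul, mul_div_cancel]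
    have h3 := h1.image f
    exact ⟨h3.subset hsub,
      (Set.ncard_le_ncard hsub h3).trans ((Set.ncard_image_le h1).trans h2)⟩

theorem exists_ringV (p : ℕ) (hp : p.Prime) (hp2 : p ≠ 2) (F : Type) [Field F]
    (hζ : ∃ ζ : F, IsPrimitiveRoot ζ p) (K k : ℕ) (hK1 : 1 ≤ K) (hk : 2 * K ≤ p ^ k)
    (hK : ∀ a : Fˣ, a ∉ pwG F p →
      ((QuotientGroup.mk' (pwG F p)) '' valS p a).Finite ∧
      ((QuotientGroup.mk' (pwG F p)) '' valS p a).ncard ≤ K) :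
    ∃ (H : Subgroup Fˣ) (O : ValuationSubring F), pwG F p ≤ H ∧
      (pwG F p).relIndex H ≠ 0 ∧ (pwG F p).relIndex H ≤ 64 * 2 ^ k * p * K ^ 3 ∧
      O.unitGroup ≤ H ∧ Pw p O := by
  obtain ⟨A, _, φ, hφ, hk'⟩ := exists_quot F (pwG F p)
  have hS := vsys hp hp2 hφ hk' K hK
  have hodd : Odd p := hp.odd_of_ne_two hp2
  obtain ⟨ζ, hζ⟩ := hζ
  have hζ0 : ζ ≠ 0 := hζ.ne_zero hp.ne_zero
  have hζ' : IsPrimitiveRoot (Units.mk0 ζ hζ0) p := by
    rw [← IsPrimitiveRoot.coe_units_iff]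
    exact hζ
  have hpF : (p : F) ≠ 0 := by
    haveI : NeZero p := ⟨hp.ne_zero⟩
    exact hζ.neZero'.ne
  have hexp : ∀ a : A, a ^ p = 1 := exp_p hφ hk'
  obtain ⟨hf, hc⟩ := nr_bound hp hp2 hζ' hS hexp hK1 hk
  obtain ⟨hg1, hg2⟩ := grp_bound hp hp2 hS hexp hK1 hk hf hc
  obtain ⟨G, hG⟩ : ∃ G : Subgroup A, G = Subgroup.closure (NR φ) := ⟨_, rfl⟩
  rw [← hG] at hg1 hg2
  have hRP : RP φ.ker (G.comap φ) := rp_of hS.neg G (by rw [hG]; exact Subgroup.subset_closure)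
  have hsq : ∀ x : Fˣ, x * x ∈ G.comap φ → x ∈ G.comap φ := by
    intro x hx
    rw [Subgroup.mem_comap] at hx ⊢
    obtain ⟨m, hm⟩ := hodd
    have : φ x = φ (x * x) ^ (m + 1) := by
      rw [map_mul, ← pow_two, ← pow_mul, show 2 * (m + 1) = p + 1 by omega, pow_succ, hexp,
        one_mul]
    rw [this]
    exact pow_mem hx _
  have hP := Pool.Agent.Y98.EP.t_PCD F φ.ker (G.comap φ) hRP hsq
  obtain ⟨O, hO⟩ := Pool.Agent.Y447.EP.t_WB' F φ.ker (G.comap φ) hRP hP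
  obtain ⟨O', -, hpO, hO'⟩ := Pool.Agent.Y232.EP.t_COARSE' F p hp hpF φ.ker (G.comap φ)
    (fun x => by rw [MonoidHom.mem_ker, phi_one hk']) hRP.le O hO
  refine ⟨G.comap φ, O', ?_, ?_, ?_, ?_, hpO, hpF, ?_⟩
  · rw [← hk']; exact hRP.le
  · rw [← hk', Subgroup.relIndex_ker, Subgroup.map_comap_eq_self_of_surjective hφ]
    exact hg1
  · rw [← hk', Subgroup.relIndex_ker, Subgroup.map_comap_eq_self_of_surjective hφ]
    exact hg2
  · intro u hu
    refine hO'.units u ?_ ?_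
    · rw [← ValuationSubring.valuation_le_one_iff]
      exact le_of_eq hu
    · rw [← ValuationSubring.valuation_le_one_iff]
      exact le_of_eq (inv_mem hu : u⁻¹ ∈ O'.unitGroup)
  · intro x hx hx'
    obtain ⟨t, ht, e⟩ := hO'.one x hx hx'
    rw [MonoidHom.mem_ker, phi_one hk'] at ht
    obtain ⟨b, rfl⟩ := ht
    exact ⟨b, by rw [← e, Units.val_pow_eq_pow_val]⟩

end Pool.Agent.Q10.EPV
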